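import Pool.Agent.H736R5.GL.G00
import Pool.Agent.H736R5.GL.G01
import Pool.Agent.H736R5.GL.G02
import Pool.Agent.H736R5.GL.G03
import Pool.Agent.H736R5.GL.G04
import Pool.Agent.H736R5.GL.G05
import Pool.Agent.H736R5.GL.G06
import Pool.Agent.H736R5.GL.G07
import Pool.Agent.H736R5.GL.G08
import Pool.Agent.H736R5.GL.G09

namespace H736R5.GL

theorem all (b : ℕ × ℕ × ℕ) (hb : b = (1, 0, 0) ∨ b = (1, 0, 1)) : BoxGood b := by
  have h : ∀ b ∈ s233, BoxGood b := by
    intro b hb
    simp [s233] at hb
  replace h := part9 h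
  replace h : ∀ b ∈ s216, BoxGood b := h
  replace h := part8 h
  replace h : ∀ b ∈ s192, BoxGood b := h
  replace h := part7 h
  replace h : ∀ b ∈ s168, BoxGood b := h
  replace h := part6 h
  replace h : ∀ b ∈ s144, BoxGood b := h
  replace h := part5 h
  replace h : ∀ b ∈ s120, BoxGood b := h
  replace h := part4 h
  replace h : ∀ b ∈ s96, BoxGood b := h
  replace h := part3 h
  replace h : ∀ b ∈ s72, BoxGood b := h
  replace h := part2 h
  replace h : ∀ b ∈ s48, BoxGood b := h
  replace h := part1 h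
  replace h : ∀ b ∈ s24, BoxGood b := h
  replace h := part0 h
  apply h
  rcases hb with rfl | rfl <;> simp [s0]

end H736R5.GL
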